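import Pool.Agent.Helper30.PB.St

/-! Project PB (MP_2d2425_nt), module AVP: average of the singular series over pairs of primes -/

set_option autoImplicit false

noncomputable section

namespace Pool.Agent.Helper71.PB

open Finset ArithmeticFunction
open Pool.Agent.Helper30.PB
open Pool.Agent.Helper93.KN (ff StSieve StAvg)
open Pool.Agent.Helper48.BK (StSW th)

/-- the weight `1 / √d` -/
private def gg (d : ℕ) : ℝ := (Real.sqrt d)⁻¹

private theorem gg_nonneg (d : ℕ) : 0 ≤ gg d := inv_nonneg.2 (Real.sqrt_nonneg _)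

/-- the divisor sum of the weight -/
private def DD (m : ℕ) : ℝ := ∑ d ∈ m.divisors, gg d

private theorem DD_nonneg (m : ℕ) : 0 ≤ DD m := sum_nonneg fun d _ => gg_nonneg d

private theorem gg_prod (T : Finset ℕ) : ∏ l ∈ T, gg l = gg (∏ l ∈ T, l) := by
  induction T using Finset.induction_on with
  | empty => simp [gg]
  | insert a s ha ih =>
    rw [prod_insert ha, prod_insert ha, ih]
    unfold gg
    rw [Nat.cast_mul, Real.sqrt_mul (Nat.cast_nonneg _), mul_inv]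

private theorem prod_le_DD (m : ℕ) (hm : m ≠ 0) : ∏ l ∈ m.primeFactors, (1 + gg l) ≤ DD m := by
  rw [Finset.prod_one_add]
  have hinj : Set.InjOn (fun T : Finset ℕ => ∏ l ∈ T, l) (m.primeFactors.powerset : Set (Finset ℕ)) := by
    intro T hT T' hT' h
    have hT1 := mem_powerset.1 (mem_coe.1 hT)
    have hT2 := mem_powerset.1 (mem_coe.1 hT')
    have e1 := Nat.primeFactors_prod (s := T) fun p hp => Nat.prime_of_mem_primeFactors (hT1 hp)
    have e2 := Nat.primeFactors_prod (s := T') fun p hp => Nat.prime_of_mem_primeFactors (hT2 hp)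
    have h' : ∏ l ∈ T, l = ∏ l ∈ T', l := h
    rw [← e1, ← e2, h']
  have h1 : ∑ T ∈ m.primeFactors.powerset, ∏ l ∈ T, gg l =
      ∑ d ∈ m.primeFactors.powerset.image (fun T : Finset ℕ => ∏ l ∈ T, l), gg d := by
    rw [sum_image hinj]
    exact sum_congr rfl fun T _ => gg_prod T
  rw [h1]
  unfold DD
  refine sum_le_sum_of_subset_of_nonneg ?_ fun d _ _ => gg_nonneg d
  intro d hd
  obtain ⟨T, hT, rfl⟩ := mem_image.1 hd
  refine Nat.mem_divisors.2 ⟨?_, hm⟩
  exact (prod_dvd_prod_of_subset _ _ _ (mem_powerset.1 hT)).trans (Nat.prod_primeFactors_dvd m)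

private theorem ff_one_le (m : ℕ) : 1 ≤ ff m := by
  unfold ff
  exact Finset.one_le_prod fun l _ => by
    have : (0 : ℝ) ≤ 4 / (l : ℝ) := by positivity
    linarith

private theorem ff_mul_le (m m' : ℕ) : ff (m * m') ≤ ff m * ff m' := by
  by_cases h : m = 0 ∨ m' = 0
  · have h0 : m * m' = 0 := by
      rcases h with h | h <;> simp [h]
    have h1 : ff (m * m') = 1 := by
      rw [h0]
      simp [ff]
    rw [h1]
    nlinarith [ff_one_le m, ff_one_le m']
  · rw [not_or] at h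
    have h1 : ff (m * m') = ∏ l ∈ m.primeFactors ∪ m'.primeFactors, (1 + 4 / (l : ℝ)) := by
      unfold ff
      rw [Nat.primeFactors_mul h.1 h.2]
    have h2 := Finset.prod_union_inter (s₁ := m.primeFactors) (s₂ := m'.primeFactors)
      (f := fun l : ℕ => (1 + 4 / (l : ℝ)))
    have h3 : (1 : ℝ) ≤ ∏ l ∈ m.primeFactors ∩ m'.primeFactors, (1 + 4 / (l : ℝ)) :=
      Finset.one_le_prod fun l _ => by
        have : (0 : ℝ) ≤ 4 / (l : ℝ) := by positivity
        linarith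
    have h4 : (0 : ℝ) ≤ ∏ l ∈ m.primeFactors ∪ m'.primeFactors, (1 + 4 / (l : ℝ)) :=
      prod_nonneg fun l _ => by positivity
    rw [h1]
    change _ ≤ (∏ l ∈ m.primeFactors, (1 + 4 / (l : ℝ))) * ∏ l ∈ m'.primeFactors, (1 + 4 / (l : ℝ))
    rw [← h2]
    exact le_mul_of_one_le_right h4 h3

private theorem exists_L : ∃ L : ℕ, ∀ l : ℕ, L ≤ l → 624 * (1 / (l : ℝ)) ≤ gg l := by
  refine ⟨625 ^ 2, fun l hl => ?_⟩
  have h1 : (625 : ℝ) ≤ Real.sqrt l := by
    refine Real.le_sqrt_of_sq_le ?_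
    exact_mod_cast hl
  have h2 : (0 : ℝ) < Real.sqrt l := by linarith
  have h3 : (l : ℝ) = Real.sqrt l * Real.sqrt l := (Real.mul_self_sqrt (Nat.cast_nonneg l)).symm
  unfold gg
  rw [h3, Real.sqrt_mul_self h2.le, mul_one_div, div_le_iff₀ (mul_pos h2 h2), ← mul_assoc,
    inv_mul_cancel₀ h2.ne', one_mul]
  linarith

private theorem four_le (t : ℝ) (h0 : 0 ≤ t) (h1 : t ≤ 1) : (1 + 4 * t) ^ 4 ≤ 1 + 624 * t := by
  have h2 : t ^ 2 ≤ t := by nlinarith
  have h3 : t ^ 3 ≤ t := by nlinarith [mul_nonneg h0 h0]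
  have h4 : t ^ 4 ≤ t := by nlinarith [mul_nonneg h0 h0, mul_nonneg (mul_nonneg h0 h0) h0]
  nlinarith

private theorem exists_C₀ : ∃ C₀ : ℝ, 0 < C₀ ∧ ∀ m : ℕ, m ≠ 0 → ff m ^ 4 ≤ C₀ * DD m := by
  obtain ⟨L, hL⟩ := exists_L
  refine ⟨625 ^ L, by positivity, fun m hm => ?_⟩
  have h1 : ff m ^ 4 ≤ ∏ l ∈ m.primeFactors, ((if l < L then (625 : ℝ) else 1) * (1 + gg l)) := by
    unfold ff
    rw [← prod_pow]
    refine prod_le_prod (fun l _ => by positivity) fun l hl => ?_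
    have hlp : 1 ≤ l := (Nat.prime_of_mem_primeFactors hl).one_le
    have ht0 : (0 : ℝ) ≤ 1 / (l : ℝ) := by positivity
    have ht1 : 1 / (l : ℝ) ≤ 1 := by
      rw [div_le_one (by exact_mod_cast hlp)]
      exact_mod_cast hlp
    have h2 := four_le (1 / (l : ℝ)) ht0 ht1
    have h3 : (4 : ℝ) / l = 4 * (1 / l) := by ring
    rw [h3]
    refine h2.trans ?_
    have h4 := gg_nonneg l
    split_ifs with hlL
    · nlinarith
    · have h5 := hL l (not_lt.1 hlL)
      linarith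
  refine h1.trans ?_
  rw [prod_mul_distrib]
  refine mul_le_mul ?_ (prod_le_DD m hm) (prod_nonneg fun l _ => by
    have := gg_nonneg l
    linarith) (by positivity)
  rw [← prod_filter, prod_const]
  refine pow_le_pow_right₀ (by norm_num) ?_
  have h6 : m.primeFactors.filter (fun l => l < L) ⊆ range L := by
    intro l hl
    exact mem_range.2 (mem_filter.1 hl).2
  exact (card_le_card h6).trans (card_range L).le

private theorem sum_half (N : ℕ) : ∑ d ∈ Icc 1 N, gg d ≤ 2 * Real.sqrt N := by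
  induction N with
  | zero => simp
  | succ N ih =>
    rw [sum_Icc_succ_top (by omega)]
    have ha : (0 : ℝ) ≤ Real.sqrt N := Real.sqrt_nonneg _
    have hb : (0 : ℝ) < Real.sqrt ((N + 1 : ℕ) : ℝ) := Real.sqrt_pos.2 (by positivity)
    have h1 : Real.sqrt N * Real.sqrt N = N := Real.mul_self_sqrt (Nat.cast_nonneg N)
    have h2 : Real.sqrt ((N + 1 : ℕ) : ℝ) * Real.sqrt ((N + 1 : ℕ) : ℝ) = N + 1 := by
      rw [Real.mul_self_sqrt (Nat.cast_nonneg _)]
      push_cast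
      ring
    have h3 : gg (N + 1) ≤ 2 * (Real.sqrt ((N + 1 : ℕ) : ℝ) - Real.sqrt N) := by
      unfold gg
      rw [inv_le_iff_one_le_mul₀ hb]
      nlinarith [sq_nonneg (Real.sqrt ((N + 1 : ℕ) : ℝ) - Real.sqrt N)]
    linarith

private theorem sum_DD_le {α : Type} (s : Finset α) (f : α → ℕ) (M : ℕ)
    (h : ∀ i ∈ s, 1 ≤ f i ∧ f i ≤ M) : ∑ i ∈ s, DD (f i) ≤
      ∑ d ∈ Icc 1 M, gg d * ((s.filter (fun i => d ∣ f i)).card : ℝ) := by
  have h1 : ∀ i ∈ s, DD (f i) ≤ ∑ d ∈ Icc 1 M, if d ∣ f i then gg d else 0 := by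
    intro i hi
    rw [← sum_filter]
    unfold DD
    refine sum_le_sum_of_subset_of_nonneg ?_ fun d _ _ => gg_nonneg d
    intro d hd
    have h2 := Nat.dvd_of_mem_divisors hd
    have h3 := Nat.le_of_dvd (h i hi).1 h2
    exact mem_filter.2 ⟨mem_Icc.2 ⟨Nat.pos_of_mem_divisors hd, h3.trans (h i hi).2⟩, h2⟩
  refine (sum_le_sum h1).trans ?_
  rw [sum_comm]
  refine le_of_eq (sum_congr rfl fun d _ => ?_)
  rw [← sum_filter, sum_const, nsmul_eq_mul, mul_comm]

/-- the summable weight -/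
private def ww (d : ℕ) : ℝ := (d : ℝ) ^ (-(5 / 4) : ℝ)

private theorem ww_nonneg (d : ℕ) : 0 ≤ ww d := Real.rpow_nonneg (Nat.cast_nonneg _) _

private theorem ww_sum : ∃ S : ℝ, 0 < S ∧ ∀ M : ℕ, ∑ d ∈ Icc 1 M, ww d ≤ S := by
  have hs : Summable ww := Real.summable_nat_rpow.2 (by norm_num)
  refine ⟨∑' d, ww d + 1, ?_, fun M => ?_⟩
  · have : 0 ≤ ∑' d, ww d := tsum_nonneg ww_nonneg
    linarith
  · have := hs.sum_le_tsum (Icc 1 M) (fun d _ => ww_nonneg d)
    linarith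

private theorem DD_le (d : ℕ) : DD d ≤ 2 * Real.sqrt d := by
  refine le_trans ?_ (sum_half d)
  unfold DD
  refine sum_le_sum_of_subset_of_nonneg ?_ fun e _ _ => gg_nonneg e
  intro e he
  exact mem_Icc.2 ⟨Nat.pos_of_mem_divisors he, Nat.divisor_le he⟩

private theorem ff_le : ∃ C₁ : ℝ, 0 < C₁ ∧ ∀ d : ℕ, d ≠ 0 → ff d ≤ C₁ * (d : ℝ) ^ (1 / 4 : ℝ) := by
  obtain ⟨C₀, hC₀, h4⟩ := exists_C₀
  refine ⟨Real.sqrt (2 * C₀), Real.sqrt_pos.2 (by linarith), fun d hd => ?_⟩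
  have h1 := h4 d hd
  have h2 := mul_le_mul_of_nonneg_left (DD_le d) hC₀.le
  have h3 : (ff d ^ 2) ^ 2 ≤ (2 * C₀) * Real.sqrt d := by nlinarith
  have h5 : ff d ^ 2 ≤ Real.sqrt ((2 * C₀) * Real.sqrt d) := Real.le_sqrt_of_sq_le h3
  have h6 : Real.sqrt ((2 * C₀) * Real.sqrt d) = Real.sqrt (2 * C₀) * (d : ℝ) ^ (1 / 4 : ℝ) := by
    rw [Real.sqrt_mul (by linarith)]
    congr 1
    rw [Real.sqrt_eq_rpow, Real.sqrt_eq_rpow, ← Real.rpow_mul (Nat.cast_nonneg _)]
    norm_num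
  rw [h6] at h5
  refine le_trans ?_ h5
  have := ff_one_le d
  nlinarith

private theorem gg_rpow (d : ℕ) : gg d = (d : ℝ) ^ (-(1 / 2) : ℝ) := by
  unfold gg
  rw [Real.rpow_neg (Nat.cast_nonneg _), Real.sqrt_eq_rpow]

/-- the trivial bound for the number of integers in a class -/
private theorem pc_triv (K d t : ℕ) (hd : 1 ≤ d) (hdK : d ≤ 3 * K) : ((pc K d t).card : ℝ) ≤ 4 * K / d := by
  have h1 : (pc K d t).card ≤ K / d + 1 := by
    have h2 : (pc K d t).card ≤ (range (K / d + 1)).card := by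
      refine card_le_card_of_injOn (fun p => p / d) ?_ ?_
      · intro p hp
        have hp1 := mem_Icc.1 (mem_filter.1 (mem_coe.1 hp)).1
        exact mem_coe.2 (mem_range.2 (Nat.lt_succ_of_le (Nat.div_le_div_right hp1.2)))
      · intro p hp q hq hpq
        have hp1 := (mem_filter.1 (mem_coe.1 hp)).2.2
        have hq1 := (mem_filter.1 (mem_coe.1 hq)).2.2
        have h3 : p / d = q / d := hpq
        have h4 : p % d = q % d := hp1.trans hq1.symm
        rw [← Nat.div_add_mod p d, ← Nat.div_add_mod q d, h3, h4]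
    rwa [card_range] at h2
  have h2 : ((pc K d t).card : ℝ) ≤ (K : ℝ) / d + 1 := by
    refine (Nat.cast_le.2 h1).trans ?_
    push_cast
    have h12 : ((K / d : ℕ) : ℝ) ≤ K / d := Nat.cast_div_le
    linarith
  have hdpos : (0 : ℝ) < d := by exact_mod_cast hd
  have h3 : (1 : ℝ) ≤ 3 * K / d := by
    rw [le_div_iff₀ hdpos]
    have : (d : ℝ) ≤ ((3 * K : ℕ) : ℝ) := Nat.cast_le.2 hdK
    push_cast at this
    linarith
  have h4 : (4 : ℝ) * K / d = K / d + 3 * K / d := by ring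
  linarith

private theorem key_bound (hB : StBTP) : ∃ C₂ : ℝ, 0 < C₂ ∧ ∀ K d t : ℕ, 2 ≤ K → 1 ≤ d → d ≤ 3 * K →
    gg d * ((pc K d t).card : ℝ) ≤ C₂ * (K / Real.log K) * ww d := by
  obtain ⟨C, hC, hB⟩ := hB
  obtain ⟨C₁, hC₁, hf⟩ := ff_le
  refine ⟨C * C₁ + 32, by positivity, fun K d t hK hd hdK => ?_⟩
  have hdpos : (0 : ℝ) < d := by exact_mod_cast hd
  have hK2 : (2 : ℝ) ≤ K := by exact_mod_cast hK
  have hKpos : (0 : ℝ) < K := by linarith
  have hlog : 0 < Real.log K := Real.log_pos (by linarith)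
  have hX : 0 < (K : ℝ) / Real.log K := div_pos hKpos hlog
  have hww := ww_nonneg d
  rcases le_or_gt (d ^ 2) K with h | h
  · have h1 := hB K d t hK hd h
    have h2 := hf d (by omega)
    have h3 : C * (K / (d * Real.log K)) * ff d ≤ C * (K / (d * Real.log K)) * (C₁ * (d : ℝ) ^ (1 / 4 : ℝ)) :=
      mul_le_mul_of_nonneg_left h2 (by positivity)
    have h4 : gg d * (C * (K / (d * Real.log K)) * (C₁ * (d : ℝ) ^ (1 / 4 : ℝ))) =
        C * C₁ * (K / Real.log K) * ww d := by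
      have e1 : ww d = gg d * (d : ℝ)⁻¹ * (d : ℝ) ^ (1 / 4 : ℝ) := by
        rw [gg_rpow, ← Real.rpow_neg_one, ← Real.rpow_add hdpos, ← Real.rpow_add hdpos]
        unfold ww
        norm_num
      rw [e1]
      field_simp
    calc gg d * ((pc K d t).card : ℝ) ≤ gg d * (C * (K / (d * Real.log K)) * (C₁ * (d : ℝ) ^ (1 / 4 : ℝ))) :=
          mul_le_mul_of_nonneg_left (h1.trans h3) (gg_nonneg d)
      _ = C * C₁ * (K / Real.log K) * ww d := h4
      _ ≤ (C * C₁ + 32) * (K / Real.log K) * ww d := by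
          refine mul_le_mul_of_nonneg_right ?_ hww
          exact mul_le_mul_of_nonneg_right (by linarith) hX.le
  · have h1 := pc_triv K d t hd hdK
    have h2 : (d : ℝ) ^ (-(1 / 4) : ℝ) ≤ (K : ℝ) ^ (-(1 / 8) : ℝ) := by
      have e1 : (d : ℝ) ^ (-(1 / 4) : ℝ) = ((d : ℝ) ^ (2 : ℕ)) ^ (-(1 / 8) : ℝ) := by
        rw [← Real.rpow_natCast, ← Real.rpow_mul hdpos.le]
        norm_num
      rw [e1]
      refine Real.rpow_le_rpow_of_nonpos hKpos ?_ (by norm_num)
      have : ((K : ℕ) : ℝ) ≤ ((d ^ 2 : ℕ) : ℝ) := Nat.cast_le.2 h.le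
      rwa [Nat.cast_pow] at this
    have h3 : (K : ℝ) ^ (-(1 / 8) : ℝ) ≤ 8 / Real.log K := by
      have e1 := Real.log_le_rpow_div hKpos.le (show (0 : ℝ) < 1 / 8 by norm_num)
      have e2 : 0 < (K : ℝ) ^ (1 / 8 : ℝ) := Real.rpow_pos_of_pos hKpos _
      rw [Real.rpow_neg hKpos.le, inv_le_iff_one_le_mul₀ e2, div_mul_eq_mul_div, le_div_iff₀ hlog]
      rw [div_div_eq_mul_div, div_one] at e1
      linarith
    have h4 : gg d * (4 * K / d) = 4 * K * ((d : ℝ) ^ (-(1 / 4) : ℝ) * ww d) := by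
      have e1 : gg d * (d : ℝ)⁻¹ = (d : ℝ) ^ (-(1 / 4) : ℝ) * ww d := by
        unfold ww
        rw [gg_rpow, ← Real.rpow_neg_one, ← Real.rpow_add hdpos, ← Real.rpow_add hdpos]
        norm_num
      rw [← e1]
      field_simp
    calc gg d * ((pc K d t).card : ℝ) ≤ gg d * (4 * K / d) := mul_le_mul_of_nonneg_left h1 (gg_nonneg d)
      _ = 4 * K * ((d : ℝ) ^ (-(1 / 4) : ℝ) * ww d) := h4
      _ ≤ 4 * K * ((8 / Real.log K) * ww d) :=
          mul_le_mul_of_nonneg_left (mul_le_mul_of_nonneg_right (h2.trans h3) hww) (by positivity)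
      _ = 32 * (K / Real.log K) * ww d := by ring
      _ ≤ (C * C₁ + 32) * (K / Real.log K) * ww d := by
          refine mul_le_mul_of_nonneg_right ?_ hww
          refine mul_le_mul_of_nonneg_right ?_ hX.le
          have : 0 ≤ C * C₁ := by positivity
          linarith

/-- a sum over the primes `p' ≠ p` -/
private theorem inner_bound (hB : StBTP) : ∃ C₃ : ℝ, 0 < C₃ ∧ ∀ K : ℕ, 2 ≤ K → ∀ (s : Finset ℕ) (f : ℕ → ℕ),
    (∀ q ∈ s, q ∈ Icc 1 K ∧ q.Prime ∧ 1 ≤ f q ∧ f q ≤ 3 * K) →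
    (∀ d : ℕ, ∃ t : ℕ, ∀ q ∈ s, d ∣ f q → q % d = t % d) →
    ∑ q ∈ s, DD (f q) ≤ C₃ * (K / Real.log K) := by
  obtain ⟨C₂, hC₂, h⟩ := key_bound hB
  obtain ⟨S, hS, hw⟩ := ww_sum
  refine ⟨C₂ * S, by positivity, fun K hK s f hs ht => ?_⟩
  have hK2 : (2 : ℝ) ≤ K := by exact_mod_cast hK
  have hX : 0 < (K : ℝ) / Real.log K := div_pos (by linarith) (Real.log_pos (by linarith))
  refine (sum_DD_le s f (3 * K) fun q hq => (hs q hq).2.2).trans ?_
  have h1 : ∀ d ∈ Icc 1 (3 * K), gg d * ((s.filter (fun q => d ∣ f q)).card : ℝ) ≤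
      C₂ * (K / Real.log K) * ww d := by
    intro d hd
    have hd' := mem_Icc.1 hd
    obtain ⟨t, ht⟩ := ht d
    refine le_trans ?_ (h K d t hK hd'.1 hd'.2)
    refine mul_le_mul_of_nonneg_left ?_ (gg_nonneg d)
    refine Nat.cast_le.2 (card_le_card ?_)
    intro q hq
    obtain ⟨hq1, hq2⟩ := mem_filter.1 hq
    exact mem_filter.2 ⟨(hs q hq1).1, (hs q hq1).2.1, ht q hq1 hq2⟩
  refine (sum_le_sum h1).trans ?_
  rw [← mul_sum]
  have h2 := mul_le_mul_of_nonneg_left (hw (3 * K)) (by positivity : 0 ≤ C₂ * ((K : ℝ) / Real.log K))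
  linarith

theorem hAVP (hB : StBTP) (_hA : StAvg) : StAVP := by
  obtain ⟨C₃, hC₃, hin⟩ := inner_bound hB
  obtain ⟨C₀, hC₀, h4⟩ := exists_C₀
  obtain ⟨C, hC, hBT⟩ := hB
  refine ⟨C * (C₀ * C₃), by positivity, fun K hK => ?_⟩
  have hK2 : (2 : ℝ) ≤ K := by exact_mod_cast hK
  have hX : 0 < (K : ℝ) / Real.log K := div_pos (by linarith) (Real.log_pos (by linarith))
  set X : ℝ := (K : ℝ) / Real.log K with hXdef
  set P : Finset ℕ := (Icc 1 K).filter Nat.Prime with hP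
  have hcard : (P.card : ℝ) ≤ C * X := by
    have h1 := hBT K 1 0 hK le_rfl (by omega)
    have h2 : pc K 1 0 = P := by
      unfold pc
      rw [hP]
      refine filter_congr fun p _ => ?_
      simp [Nat.mod_one]
    have h3 : ff 1 = 1 := by simp [ff]
    rw [h2, h3, Nat.cast_one, one_mul, mul_one] at h1
    exact h1
  have hmemP : ∀ p, p ∈ P ↔ (1 ≤ p ∧ p ≤ K) ∧ p.Prime := by
    intro p
    rw [hP, mem_filter, mem_Icc]
  have hpt : ∀ p ∈ P, ∀ q ∈ P, p ≠ q →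
      ff ((((p ^ 2 + p + 1 : ℕ) : ℤ) - ((q ^ 2 + q + 1 : ℕ) : ℤ)).natAbs) ≤
      C₀ / 2 * (DD ((p : ℤ) - q).natAbs + DD (p + q + 1)) := by
    intro p hp q hq hpq
    have e1 : (((p ^ 2 + p + 1 : ℕ) : ℤ) - ((q ^ 2 + q + 1 : ℕ) : ℤ)).natAbs =
        ((p : ℤ) - q).natAbs * (p + q + 1) := by
      have e2 : ((p ^ 2 + p + 1 : ℕ) : ℤ) - ((q ^ 2 + q + 1 : ℕ) : ℤ) = ((p : ℤ) - q) * ((p + q + 1 : ℕ) : ℤ) := by
        push_cast
        ring
      rw [e2, Int.natAbs_mul, Int.natAbs_natCast]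
    rw [e1]
    refine (ff_mul_le _ _).trans ?_
    have a1 := h4 ((p : ℤ) - q).natAbs (by omega)
    have a2 := h4 (p + q + 1) (by omega)
    have b1 := ff_one_le ((p : ℤ) - q).natAbs
    have b2 := ff_one_le (p + q + 1)
    generalize ff ((p : ℤ) - q).natAbs = x at *
    generalize ff (p + q + 1) = y at *
    have c1 : x * y ≤ (x ^ 2 + y ^ 2) / 2 := by nlinarith [sq_nonneg (x - y)]
    have c2 : x ^ 2 ≤ x ^ 4 := pow_le_pow_right₀ b1 (by norm_num)
    have c3 : y ^ 2 ≤ y ^ 4 := pow_le_pow_right₀ b2 (by norm_num)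
    linarith
  have hrow : ∀ p ∈ P, ∑ q ∈ P.filter (fun q => p ≠ q),
      ff ((((p ^ 2 + p + 1 : ℕ) : ℤ) - ((q ^ 2 + q + 1 : ℕ) : ℤ)).natAbs) ≤ C₀ * C₃ * X := by
    intro p hp
    have hp' := (hmemP p).1 hp
    have h1 : ∑ q ∈ P.filter (fun q => p ≠ q),
        ff ((((p ^ 2 + p + 1 : ℕ) : ℤ) - ((q ^ 2 + q + 1 : ℕ) : ℤ)).natAbs) ≤
        ∑ q ∈ P.filter (fun q => p ≠ q), C₀ / 2 * (DD ((p : ℤ) - q).natAbs + DD (p + q + 1)) :=
      sum_le_sum fun q hq => hpt p hp q (mem_filter.1 hq).1 (mem_filter.1 hq).2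
    refine h1.trans ?_
    rw [← mul_sum, sum_add_distrib]
    have s1 : ∑ q ∈ P.filter (fun q => p ≠ q), DD ((p : ℤ) - q).natAbs ≤ C₃ * X := by
      refine hin K hK _ (fun q => ((p : ℤ) - q).natAbs) ?_ ?_
      · intro q hq
        obtain ⟨hq1, hq2⟩ := mem_filter.1 hq
        have hq3 := (hmemP q).1 hq1
        refine ⟨mem_Icc.2 hq3.1, hq3.2, ?_, ?_⟩
        · show 1 ≤ ((p : ℤ) - q).natAbs
          omega
        · show ((p : ℤ) - q).natAbs ≤ 3 * K
          omega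
      · intro d
        refine ⟨p, fun q _ hdq => ?_⟩
        have k1 : (d : ℤ) ∣ (p : ℤ) - q := Int.natCast_dvd.2 hdq
        exact (Nat.modEq_iff_dvd.2 k1)
    have s2 : ∑ q ∈ P.filter (fun q => p ≠ q), DD (p + q + 1) ≤ C₃ * X := by
      refine hin K hK _ (fun q => p + q + 1) ?_ ?_
      · intro q hq
        obtain ⟨hq1, hq2⟩ := mem_filter.1 hq
        have hq3 := (hmemP q).1 hq1
        refine ⟨mem_Icc.2 hq3.1, hq3.2, ?_, ?_⟩
        · show 1 ≤ p + q + 1
          omega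
        · show p + q + 1 ≤ 3 * K
          have := hp'.1.2
          have := hq3.1.2
          have hqK := hq3.2.two_le
          have hpK := hp'.2.two_le
          omega
      · intro d
        rcases Nat.eq_zero_or_pos d with hd | hd
        · refine ⟨0, fun q _ hdq => ?_⟩
          rw [hd] at hdq
          have : p + q + 1 = 0 := Nat.eq_zero_of_zero_dvd hdq
          omega
        · refine ⟨(d - 1) * (p + 1), fun q _ hdq => ?_⟩
          have e1 : (d - 1) * (p + 1) + (p + 1) = d * (p + 1) := by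
            obtain ⟨e, rfl⟩ : ∃ e, d = e + 1 := ⟨d - 1, by omega⟩
            rw [Nat.add_sub_cancel]
            ring
          have e2 : q + (p + 1) ≡ (d - 1) * (p + 1) + (p + 1) [MOD d] := by
            rw [e1]
            have k1 : q + (p + 1) ≡ 0 [MOD d] := by
              refine (Nat.modEq_zero_iff_dvd).2 ?_
              have : q + (p + 1) = p + q + 1 := by ring
              rw [this]
              exact hdq
            exact k1.trans ((Nat.modEq_zero_iff_dvd).2 (dvd_mul_right _ _)).symm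
          exact Nat.ModEq.add_right_cancel' _ e2
    have h5 : C₀ / 2 * (∑ q ∈ P.filter (fun q => p ≠ q), DD ((p : ℤ) - q).natAbs +
        ∑ q ∈ P.filter (fun q => p ≠ q), DD (p + q + 1)) ≤ C₀ / 2 * (C₃ * X + C₃ * X) :=
      mul_le_mul_of_nonneg_left (add_le_add s1 s2) (by positivity)
    refine h5.trans (le_of_eq ?_)
    ring
  have hsum : ∑ v ∈ (P ×ˢ P).filter (fun v : ℕ × ℕ => v.1 ≠ v.2),
      ff ((((v.1 ^ 2 + v.1 + 1 : ℕ) : ℤ) - ((v.2 ^ 2 + v.2 + 1 : ℕ) : ℤ)).natAbs) =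
      ∑ p ∈ P, ∑ q ∈ P.filter (fun q => p ≠ q),
        ff ((((p ^ 2 + p + 1 : ℕ) : ℤ) - ((q ^ 2 + q + 1 : ℕ) : ℤ)).natAbs) := by
    rw [sum_filter, sum_product]
    refine sum_congr rfl fun p _ => ?_
    exact (sum_filter (fun q => p ≠ q) _).symm
  rw [hsum]
  refine (sum_le_sum hrow).trans ?_
  rw [sum_const, nsmul_eq_mul]
  have h6 : (P.card : ℝ) * (C₀ * C₃ * X) ≤ C * X * (C₀ * C₃ * X) :=
    mul_le_mul_of_nonneg_right hcard (by positivity)
  refine h6.trans (le_of_eq ?_)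
  ring

end Pool.Agent.Helper71.PB
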